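import Mathlib

/-!
# Counting in Kronecker sequences of a badly approximable number, without continued fractions
-/

set_option autoImplicit false

open Finset

namespace Pool.Agent.Q3.VdC

/-- Number of `k < K` with `{s + k β} < a`. -/
noncomputable def cnt (s β a : ℝ) (K : ℕ) : ℕ :=
  ((range K).filter (fun k : ℕ => Int.fract (s + k * β) < a)).card

theorem cnt_add (s β a : ℝ) (K L : ℕ) : cnt s β a (K + L) = cnt s β a K + cnt (s + K * β) β a L := by
  unfold cnt
  rw [Finset.card_filter, Finset.card_filter, Finset.card_filter, Finset.sum_range_add]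
  congr 1
  apply Finset.sum_congr rfl
  intro k _
  have : s + ((K + k : ℕ) : ℝ) * β = s + K * β + k * β := by push_cast; ring
  rw [this]

/-- A block of length `Q`. -/
theorem block (β s a : ℝ) (ha0 : 0 ≤ a) (ha1 : a ≤ 1) (Q : ℕ) (hQ : 0 < Q) (P : ℤ)
    (hcop : IsCoprime P (Q : ℤ)) (hβ : |β - P / Q| < 1 / (Q : ℝ) ^ 2) :
    |(cnt s β a Q : ℝ) - a * Q| ≤ 4 := by
  have hQr : (0 : ℝ) < Q := by exact_mod_cast hQ
  set η : ℝ := β - P / Q with hη
  set S : ℤ := ⌊Q * s⌋ with hS
  set m : ℕ → ℤ := fun k => (S + k * P) % Q with hm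
  have hm0 : ∀ k, 0 ≤ m k := fun k => Int.emod_nonneg _ (by exact_mod_cast hQ.ne')
  have hmQ : ∀ k, m k < Q := fun k => Int.emod_lt_of_pos _ (by exact_mod_cast hQ)
  have hminj : ∀ k < Q, ∀ l < Q, m k = m l → k = l := by
    intro k hk l hl h
    have h1 : (Q : ℤ) ∣ (S + k * P) - (S + l * P) :=
      Int.ModEq.dvd (show (S + l * P) ≡ (S + k * P) [ZMOD Q] from h.symm)
    have h2 : (Q : ℤ) ∣ ((k : ℤ) - l) * P := by
      have : (S + k * P) - (S + l * P) = ((k : ℤ) - l) * P := by ring
      rwa [this] at h1
    have h3 : (Q : ℤ) ∣ (k : ℤ) - l := hcop.symm.dvd_of_dvd_mul_right h2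
    have h4 : |(k : ℤ) - l| < Q := by
      rw [abs_lt]; constructor <;> omega
    have h5 := Int.eq_zero_of_abs_lt_dvd h3 h4
    omega
  -- location of the points
  have hloc : ∀ k < Q, 1 ≤ m k → m k ≤ (Q : ℤ) - 2 →
      ((m k : ℝ) - 1) / Q < Int.fract (s + k * β) ∧ Int.fract (s + k * β) < ((m k : ℝ) + 2) / Q := by
    intro k hk h1 h2
    obtain ⟨z, hz⟩ : ∃ z : ℤ, S + k * P = m k + Q * z := ⟨(S + k * P) / Q, by
      simp only [hm]; rw [Int.emod_add_mul_ediv]⟩
    have hS1 : (S : ℝ) ≤ Q * s := Int.floor_le _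
    have hS2 : Q * s < S + 1 := Int.lt_floor_add_one _
    have hkη : |(k : ℝ) * η| < 1 / Q := by
      rw [abs_mul, abs_of_nonneg (Nat.cast_nonneg k : (0 : ℝ) ≤ k)]
      have hkQ : (k : ℝ) < Q := by exact_mod_cast hk
      calc (k : ℝ) * |η| ≤ Q * |η| := by gcongr
        _ < Q * (1 / (Q : ℝ) ^ 2) := by gcongr
        _ = 1 / Q := by field_simp
    have hkη' := abs_lt.mp hkη
    have hval : s + k * β = (m k + (Q * s - S)) / Q + k * η + z := by
      have hz' : (S : ℝ) + k * P = m k + Q * z := by exact_mod_cast hz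
      rw [hη]
      field_simp
      linear_combination hz'
    have hlow : ((m k : ℝ) - 1) / Q < (m k + (Q * s - S)) / Q + k * η := by
      have : ((m k : ℝ) - 1) / Q = m k / Q - 1 / Q := by ring
      rw [this]
      have h3 : (m k : ℝ) / Q ≤ (m k + (Q * s - S)) / Q := by gcongr; linarith
      linarith [hkη'.1]
    have hup : (m k + (Q * s - S)) / Q + k * η < ((m k : ℝ) + 2) / Q := by
      have : ((m k : ℝ) + 2) / Q = (m k + 1) / Q + 1 / Q := by ring
      rw [this]
      have h3 : (m k + (Q * s - S)) / Q ≤ ((m k : ℝ) + 1) / Q := by gcongr; linarith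
      linarith [hkη'.2]
    have h0 : 0 ≤ ((m k : ℝ) - 1) / Q := by
      have : (1 : ℝ) ≤ m k := by exact_mod_cast h1
      apply div_nonneg _ hQr.le
      linarith
    have h1' : ((m k : ℝ) + 2) / Q ≤ 1 := by
      rw [div_le_one hQr]
      have : (m k : ℝ) ≤ (Q : ℝ) - 2 := by exact_mod_cast h2
      linarith
    have hfr : Int.fract (s + k * β) = (m k + (Q * s - S)) / Q + k * η := by
      rw [hval, Int.fract_add_intCast, Int.fract_eq_self]
      constructor <;> linarith
    rw [hfr]
    exact ⟨hlow, hup⟩
  -- upper bound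
  have hupper : (cnt s β a Q : ℝ) ≤ a * Q + 4 := by
    have h1 : cnt s β a Q ≤ (insert ((Q : ℤ) - 1) (Finset.Ico (0 : ℤ) (⌈a * Q⌉ + 2))).card := by
      unfold cnt
      apply Finset.card_le_card_of_injOn m
      · intro k hk
        simp only [coe_filter, mem_range, Set.mem_setOf_eq] at hk
        simp only [coe_insert, coe_Ico, Set.mem_insert_iff, Set.mem_Ico]
        by_cases h : m k = Q - 1
        · left; exact h
        · right
          refine ⟨hm0 k, ?_⟩
          rcases (hm0 k).eq_or_lt with h0 | h0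
          · rw [← h0]
            have : (0 : ℤ) ≤ ⌈a * Q⌉ := Int.ceil_nonneg (by positivity)
            omega
          · have h2 := (hloc k hk.1 (by omega) (by have := hmQ k; omega)).1
            have h3 := h2.trans hk.2
            rw [div_lt_iff₀ hQr] at h3
            have h4 : (m k : ℝ) < ⌈a * Q⌉ + 2 := by
              have := Int.le_ceil (a * Q)
              linarith
            exact_mod_cast h4
      · intro k hk l hl h
        simp only [coe_filter, mem_range, Set.mem_setOf_eq] at hk hl
        exact hminj k hk.1 l hl.1 h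
    have h2 : (insert ((Q : ℤ) - 1) (Finset.Ico (0 : ℤ) (⌈a * Q⌉ + 2))).card ≤
        (⌈a * Q⌉ + 2).toNat + 1 := by
      refine (Finset.card_insert_le _ _).trans ?_
      rw [Int.card_Ico, sub_zero]
    have h3 : (cnt s β a Q : ℤ) ≤ ⌈a * Q⌉ + 3 := by
      have h4 : (0 : ℤ) ≤ ⌈a * Q⌉ := Int.ceil_nonneg (by positivity)
      omega
    have h5 : (⌈a * Q⌉ : ℝ) < a * Q + 1 := Int.ceil_lt_add_one _
    have h6 : (cnt s β a Q : ℝ) ≤ ⌈a * Q⌉ + 3 := by exact_mod_cast h3
    linarith
  -- lower bound, through the complement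
  have hlower : a * Q - 4 ≤ (cnt s β a Q : ℝ) := by
    set T := (range Q).filter (fun k : ℕ => ¬ Int.fract (s + k * β) < a) with hT
    have h0 : cnt s β a Q + T.card = Q := by
      unfold cnt
      rw [hT, Finset.card_filter_add_card_filter_not, card_range]
    have h1 : T.card ≤ (insert (0 : ℤ) (Finset.Ico (⌊a * Q⌋ - 1) (Q : ℤ))).card := by
      apply Finset.card_le_card_of_injOn m
      · intro k hk
        simp only [hT, coe_filter, mem_range, Set.mem_setOf_eq, not_lt] at hk
        simp only [coe_insert, coe_Ico, Set.mem_insert_iff, Set.mem_Ico]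
        by_cases h : m k = 0
        · left; exact h
        · right
          refine ⟨?_, hmQ k⟩
          by_cases h' : m k = Q - 1
          · rw [h']
            have h2 : a * Q ≤ Q := by nlinarith
            have h3 : ⌊a * Q⌋ ≤ Q := by
              have : (⌊a * Q⌋ : ℝ) ≤ a * Q := Int.floor_le _
              have : (⌊a * Q⌋ : ℝ) ≤ (Q : ℝ) := by linarith
              exact_mod_cast this
            omega
          · have hk0 := hm0 k
            have hkQ := hmQ k
            have h2 := (hloc k hk.1 (by omega) (by omega)).2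
            have h3 := hk.2.trans_lt h2
            rw [lt_div_iff₀ hQr] at h3
            have h4 : (⌊a * Q⌋ : ℝ) < m k + 2 := by
              have := Int.floor_le (a * Q)
              linarith
            have h5 : ⌊a * Q⌋ < m k + 2 := by exact_mod_cast h4
            omega
      · intro k hk l hl h
        simp only [hT, coe_filter, mem_range, Set.mem_setOf_eq] at hk hl
        exact hminj k hk.1 l hl.1 h
    have h2 : (insert (0 : ℤ) (Finset.Ico (⌊a * Q⌋ - 1) (Q : ℤ))).card ≤
        ((Q : ℤ) - (⌊a * Q⌋ - 1)).toNat + 1 := by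
      refine (Finset.card_insert_le _ _).trans ?_
      rw [Int.card_Ico]
    have h3 : (T.card : ℤ) ≤ (Q : ℤ) - ⌊a * Q⌋ + 2 := by
      have h4 : ⌊a * Q⌋ ≤ Q := by
        have : (⌊a * Q⌋ : ℝ) ≤ a * Q := Int.floor_le _
        have : (⌊a * Q⌋ : ℝ) ≤ (Q : ℝ) := by nlinarith
        exact_mod_cast this
      omega
    have h5 : a * Q < (⌊a * Q⌋ : ℝ) + 1 := Int.lt_floor_add_one _
    have h6 : (T.card : ℝ) ≤ Q - ⌊a * Q⌋ + 2 := by exact_mod_cast h3
    have h7 : (cnt s β a Q : ℝ) + T.card = Q := by exact_mod_cast h0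
    linarith
  rw [abs_le]
  constructor <;> linarith

/-- **Discrepancy of Kronecker sequences of a badly approximable number.** -/
theorem kron (β c : ℝ) (hc : 0 < c) (hβ : ∀ q : ℕ, 0 < q → ∀ z : ℤ, c ≤ q * |q * β - z|)
    (a : ℝ) (ha0 : 0 ≤ a) (ha1 : a ≤ 1) : ∀ K : ℕ, ∀ s : ℝ,
    |(cnt s β a K : ℝ) - a * K| ≤ 4 * (if K = 0 then 0 else 1 + Real.log K / c) := by
  have hc1 : c < 1 := by
    have h := hβ 1 one_pos (round β)
    have := abs_sub_round β
    push_cast at h
    rw [one_mul, one_mul] at h
    linarith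
  intro K
  induction K using Nat.strong_induction_on with
  | _ K ih =>
    intro s
    rcases Nat.eq_zero_or_pos K with h0 | hK
    · subst h0
      simp [cnt]
    · obtain ⟨q, hq1, hq2⟩ := Real.exists_rat_abs_sub_le_and_den_le β hK
      have hden : 0 < q.den := q.den_pos
      have hdenr : (0 : ℝ) < q.den := by exact_mod_cast hden
      have hKr : (0 : ℝ) < K := by exact_mod_cast hK
      have hqcast : (q : ℝ) = (q.num : ℝ) / (q.den : ℝ) := by
        exact_mod_cast (Rat.num_div_den q).symm
      rw [hqcast] at hq1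
      have hdK : (q.den : ℝ) ≤ K := by exact_mod_cast hq2
      have hclose : |β - q.num / q.den| < 1 / (q.den : ℝ) ^ 2 := by
        refine hq1.trans_lt ?_
        rw [div_lt_div_iff₀ (by positivity) (by positivity)]
        nlinarith
      have hcop : IsCoprime q.num (q.den : ℤ) := by
        rw [Int.isCoprime_iff_gcd_eq_one]
        exact q.reduced
      have hb := block β s a ha0 ha1 q.den hden q.num hcop hclose
      -- size of the denominator
      have hsize : c * K ≤ q.den := by
        have h1 := hβ q.den hden q.num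
        have h2 : (q.den : ℝ) * β - q.num = q.den * (β - q.num / q.den) := by
          field_simp
        rw [h2, abs_mul, abs_of_pos hdenr] at h1
        have h3 : (q.den : ℝ) * |β - q.num / q.den| ≤ 1 / (K + 1) := by
          calc (q.den : ℝ) * |β - q.num / q.den| ≤ q.den * (1 / ((K + 1) * q.den)) := by gcongr
            _ = 1 / (K + 1) := by field_simp
        have h4 : c ≤ q.den * (1 / (K + 1)) := h1.trans (by gcongr)
        rw [mul_one_div, le_div_iff₀ (by positivity)] at h4
        nlinarith
      obtain ⟨L, hL⟩ := Nat.exists_eq_add_of_le hq2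
      have hLK : L < K := by omega
      have h1 := ih L hLK (s + q.den * β)
      have hsplit : (cnt s β a K : ℝ) - a * K = ((cnt s β a q.den : ℝ) - a * q.den) +
          ((cnt (s + q.den * β) β a L : ℝ) - a * L) := by
        rw [hL, cnt_add]; push_cast; ring
      rw [hsplit]
      refine (abs_add_le _ _).trans ?_
      rw [if_neg hK.ne']
      have hKL : (K : ℝ) = q.den + L := by exact_mod_cast hL
      rcases Nat.eq_zero_or_pos L with hL0 | hLpos
      · rw [if_pos hL0] at h1
        have : 0 ≤ Real.log K / c := div_nonneg (Real.log_nonneg (by exact_mod_cast hK)) hc.le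
        linarith
      · rw [if_neg hLpos.ne'] at h1
        have hLr : (0 : ℝ) < L := by exact_mod_cast hLpos
        have h2 : Real.log L ≤ Real.log K - c := by
          have h3 : (L : ℝ) / K ≤ 1 - c := by
            rw [div_le_iff₀ hKr]; linarith
          have h4 : Real.log ((L : ℝ) / K) ≤ (L : ℝ) / K - 1 := Real.log_le_sub_one_of_pos (by positivity)
          rw [Real.log_div hLr.ne' hKr.ne'] at h4
          linarith
        have h5 : 1 + Real.log L / c ≤ Real.log K / c := by
          have : Real.log L / c ≤ (Real.log K - c) / c := by gcongr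
          rw [sub_div, div_self hc.ne'] at this
          linarith
        linarith

end Pool.Agent.Q3.VdC
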