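import Mathlib
import Pool.Agent.Q3.VdC.Kron

/-!
# The van der Corput part
-/

set_option autoImplicit false

open Finset

namespace Pool.Agent.Q3.VdC

/-- The radical inverse in base `p`. -/
noncomputable def phi (p n : ℕ) : ℝ := ∑' i : ℕ, ((n / p ^ i % p : ℕ) : ℝ) / (p : ℝ) ^ (i + 1)

theorem phi_summable (p : ℕ) (hp : 2 ≤ p) (n : ℕ) :
    Summable (fun i : ℕ => ((n / p ^ i % p : ℕ) : ℝ) / (p : ℝ) ^ (i + 1)) := by
  apply summable_of_ne_finset_zero (s := range n)
  intro i hi
  rw [mem_range, not_lt] at hi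
  have h1 : n < p ^ i := lt_of_le_of_lt hi (Nat.lt_pow_self (by omega))
  rw [Nat.div_eq_of_lt h1]
  simp

theorem phi_rec (p : ℕ) (hp : 2 ≤ p) (n : ℕ) :
    p * phi p n = ((n % p : ℕ) : ℝ) + phi p (n / p) := by
  have hp0 : (p : ℝ) ≠ 0 := by positivity
  unfold phi
  rw [(phi_summable p hp n).tsum_eq_zero_add, mul_add]
  congr 1
  · simp only [pow_zero, Nat.div_one, zero_add, pow_one]
    field_simp
  · rw [← tsum_mul_left]
    apply tsum_congr
    intro i
    have h1 : n / p ^ (i + 1) = n / p / p ^ i := by rw [pow_succ', Nat.div_div_eq_div_mul]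
    rw [h1]
    field_simp
    ring

/-- The integer whose base `p` digits are the first `i` digits of `n` in reversed order. -/
def rv (p : ℕ) : ℕ → ℕ → ℕ
  | 0, _ => 0
  | (i + 1), n => p * rv p i n + n / p ^ i % p

theorem rv_lt (p : ℕ) (hp : 2 ≤ p) (i n : ℕ) : rv p i n < p ^ i := by
  induction i with
  | zero => simp [rv]
  | succ i ih =>
    have h1 : n / p ^ i % p < p := Nat.mod_lt _ (by omega)
    rw [rv, pow_succ']
    have h2 : rv p i n + 1 ≤ p ^ i := ih
    have h3 : p * (rv p i n + 1) ≤ p * p ^ i := Nat.mul_le_mul_left _ h2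
    rw [mul_add, mul_one] at h3
    omega

theorem phi_rv (p : ℕ) (hp : 2 ≤ p) (n i : ℕ) :
    (p : ℝ) ^ i * phi p n = rv p i n + phi p (n / p ^ i) := by
  induction i with
  | zero => simp [rv]
  | succ i ih =>
    have h1 := phi_rec p hp (n / p ^ i)
    rw [Nat.div_div_eq_div_mul, ← pow_succ] at h1
    rw [pow_succ', mul_assoc, ih, mul_add, h1, rv]
    push_cast
    ring

theorem phi_nonneg (p n : ℕ) : 0 ≤ phi p n := tsum_nonneg (fun i => by positivity)

theorem phi_lt_one (p : ℕ) (hp : 2 ≤ p) (n : ℕ) : phi p n < 1 := by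
  have h := phi_rv p hp n n
  have h1 : n < p ^ n := Nat.lt_pow_self (by omega)
  rw [Nat.div_eq_of_lt h1] at h
  have h2 : phi p 0 = 0 := by simp [phi]
  rw [h2, add_zero] at h
  have h3 : (rv p n n : ℝ) < (p : ℝ) ^ n := by exact_mod_cast rv_lt p hp n n
  rw [← h] at h3
  have h4 : (0 : ℝ) < (p : ℝ) ^ n := by positivity
  nlinarith

/-- The residue class with reversed digits `u`. -/
def rs (p : ℕ) : ℕ → ℕ → ℕ
  | 0, _ => 0
  | (i + 1), u => rs p i (u / p) + p ^ i * (u % p)

theorem rs_lt (p : ℕ) (hp : 2 ≤ p) (i : ℕ) : ∀ u, rs p i u < p ^ i := by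
  induction i with
  | zero => intro u; simp [rs]
  | succ i ih =>
    intro u
    have h1 : u % p < p := Nat.mod_lt _ (by omega)
    have h2 := ih (u / p)
    rw [rs, pow_succ]
    calc rs p i (u / p) + p ^ i * (u % p) < p ^ i + p ^ i * (u % p) := by omega
      _ = p ^ i * (u % p + 1) := by ring
      _ ≤ p ^ i * p := Nat.mul_le_mul_left _ h1

theorem rv_eq_iff (p : ℕ) (hp : 2 ≤ p) (i : ℕ) : ∀ n u : ℕ, u < p ^ i →
    (rv p i n = u ↔ n % p ^ i = rs p i u) := by
  induction i with
  | zero =>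
    intro n u hu
    simp only [pow_zero, Nat.lt_one_iff] at hu
    simp [rv, rs, hu, Nat.mod_one]
  | succ i ih =>
    intro n u hu
    have hup : u / p < p ^ i := by
      rw [Nat.div_lt_iff_lt_mul (by omega)]
      rw [pow_succ] at hu; exact hu
    rw [rv, rs]
    have h1 : n / p ^ i % p < p := Nat.mod_lt _ (by omega)
    have h2 : u % p < p := Nat.mod_lt _ (by omega)
    have h3 := ih n (u / p) hup
    have h4 : n % p ^ (i + 1) = n % p ^ i + p ^ i * (n / p ^ i % p) := Nat.mod_pow_succ
    have h5 : n % p ^ i < p ^ i := Nat.mod_lt _ (by positivity)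
    have h6 := rs_lt p hp i (u / p)
    constructor
    · intro h
      have h7 : rv p i n = u / p := by
        rw [← h, Nat.mul_add_div (by omega), Nat.div_eq_of_lt h1, add_zero]
      have h8 : n / p ^ i % p = u % p := by
        rw [← h, Nat.mul_add_mod, Nat.mod_eq_of_lt h1]
      rw [h4, h3.mp h7, h8]
    · intro h
      rw [h4] at h
      have h7 : n % p ^ i = rs p i (u / p) := by
        have := congrArg (· % p ^ i) h
        simp only [Nat.add_mul_mod_self_left] at this
        rwa [Nat.mod_mod, Nat.mod_eq_of_lt h6] at this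
      have h8 : n / p ^ i % p = u % p := by
        rw [h7] at h
        have h9 : p ^ i * (n / p ^ i % p) = p ^ i * (u % p) := by omega
        exact Nat.eq_of_mul_eq_mul_left (by positivity) h9
      rw [h3.mpr h7, h8, Nat.div_add_mod]

theorem class_K (N r P K : ℕ) (hP : 0 < P) (hr : r < P) (hK : K = (N - r + P - 1) / P) :
    P * K ≤ N + P ∧ N ≤ P * K + P := by
  have h1 := Nat.div_add_mod (N - r + P - 1) P
  have h2 := Nat.mod_lt (N - r + P - 1) hP
  rw [← hK] at h1
  generalize P * K = X at *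
  generalize (N - r + P - 1) % P = Y at *
  omega

/-- Counting in a residue class. -/
theorem class_count (α c : ℝ) (p i : ℕ) (hp : 2 ≤ p)
    (hα : ∀ q : ℕ, 0 < q → ∀ z : ℤ, c ≤ q * |q * ((p : ℝ) ^ i * α) - z|) (hc : 0 < c)
    (a : ℝ) (ha0 : 0 ≤ a) (ha1 : a ≤ 1) (N r : ℕ) (hN : 0 < N) (hr : r < p ^ i) :
    |(((range N).filter (fun n : ℕ => n % p ^ i = r ∧ Int.fract (n * α) < a)).card : ℝ) -
      a * (N / (p : ℝ) ^ i)| ≤ 5 + 4 * (Real.log N / c) := by
  have hpi : 0 < p ^ i := by positivity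
  have hpir : (0 : ℝ) < (p : ℝ) ^ i := by positivity
  -- number of members of the class
  set K : ℕ := (N - r + p ^ i - 1) / p ^ i with hK
  have hcard : ((range N).filter (fun n : ℕ => n % p ^ i = r ∧ Int.fract (n * α) < a)).card =
      cnt (r * α) ((p : ℝ) ^ i * α) a K := by
    unfold cnt
    symm
    apply Finset.card_bij (fun k _ => r + p ^ i * k)
    · intro k hk
      simp only [mem_filter, mem_range] at hk ⊢
      have h1 : k + 1 ≤ (N - r + p ^ i - 1) / p ^ i := hk.1
      rw [Nat.le_div_iff_mul_le hpi] at h1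
      have h1' : p ^ i * k + p ^ i ≤ N - r + p ^ i - 1 := by linarith
      refine ⟨by omega, ?_, ?_⟩
      · rw [Nat.add_mul_mod_self_left, Nat.mod_eq_of_lt hr]
      · have : ((r + p ^ i * k : ℕ) : ℝ) * α = r * α + k * ((p : ℝ) ^ i * α) := by push_cast; ring
        rw [this]; exact hk.2
    · intro k _ l _ h
      have : p ^ i * k = p ^ i * l := by omega
      exact Nat.eq_of_mul_eq_mul_left hpi this
    · intro n hn
      simp only [mem_filter, mem_range] at hn
      obtain ⟨hnN, hnr, hnf⟩ := hn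
      have hdiv := Nat.mod_add_div n (p ^ i)
      rw [hnr] at hdiv
      refine ⟨n / p ^ i, ?_, hdiv⟩
      simp only [mem_filter, mem_range]
      constructor
      · rw [hK]
        change n / p ^ i + 1 ≤ _
        rw [Nat.le_div_iff_mul_le hpi]
        have : (n / p ^ i + 1) * p ^ i = p ^ i * (n / p ^ i) + p ^ i := by ring
        rw [this]
        omega
      · have : (r : ℝ) * α + ((n / p ^ i : ℕ) : ℝ) * ((p : ℝ) ^ i * α) = n * α := by
          have h1 : ((r + p ^ i * (n / p ^ i) : ℕ) : ℝ) = n := by rw [hdiv]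
          rw [← h1]; push_cast; ring
        rw [this]; exact hnf
  rw [hcard]
  have hkr := kron ((p : ℝ) ^ i * α) c hc hα a ha0 ha1 K (r * α)
  have hKN : |(K : ℝ) - N / (p : ℝ) ^ i| ≤ 1 := by
    obtain ⟨h3, h4⟩ := class_K N r (p ^ i) K hpi hr hK
    have h3r : (p : ℝ) ^ i * K ≤ N + (p : ℝ) ^ i := by exact_mod_cast h3
    have h4r : (N : ℝ) ≤ (p : ℝ) ^ i * K + (p : ℝ) ^ i := by exact_mod_cast h4
    have h5 : (K : ℝ) - N / (p : ℝ) ^ i = ((p : ℝ) ^ i * K - N) / (p : ℝ) ^ i := by field_simp
    rw [h5, abs_div, abs_of_pos hpir, div_le_one hpir, abs_le]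
    constructor <;> linarith
  have hKle : K ≤ N := by
    rw [hK]
    apply Nat.div_le_of_le_mul
    have h1 : N + p ^ i ≤ p ^ i * N + 1 := by nlinarith
    omega
  have hlogN : 0 ≤ Real.log N / c := div_nonneg (Real.log_nonneg (by exact_mod_cast hN)) hc.le
  have hkr2 : |(cnt (r * α) ((p : ℝ) ^ i * α) a K : ℝ) - a * K| ≤ 4 + 4 * (Real.log N / c) := by
    rcases Nat.eq_zero_or_pos K with h | h
    · rw [if_pos h] at hkr
      linarith
    · rw [if_neg h.ne'] at hkr
      have h1 : Real.log K ≤ Real.log N := Real.log_le_log (by exact_mod_cast h) (by exact_mod_cast hKle)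
      have h2 : Real.log K / c ≤ Real.log N / c := by gcongr
      linarith
  have hsplit : (cnt (r * α) ((p : ℝ) ^ i * α) a K : ℝ) - a * (N / (p : ℝ) ^ i) =
      ((cnt (r * α) ((p : ℝ) ^ i * α) a K : ℝ) - a * K) + a * (K - N / (p : ℝ) ^ i) := by ring
  rw [hsplit]
  refine (abs_add_le _ _).trans ?_
  rw [abs_mul, abs_of_nonneg ha0]
  have : a * |(K : ℝ) - N / (p : ℝ) ^ i| ≤ 1 * 1 := by gcongr
  linarith

/-- Counting in `[0, B / p ^ i)`. -/
noncomputable def G (α : ℝ) (p : ℕ) (a : ℝ) (N i B : ℕ) : ℕ :=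
  ((range N).filter (fun n : ℕ => rv p i n < B ∧ Int.fract (n * α) < a)).card

theorem G_step (α : ℝ) (p : ℕ) (a : ℝ) (N i B : ℕ) : G α p a N i (B + 1) =
    G α p a N i B + ((range N).filter (fun n : ℕ => rv p i n = B ∧ Int.fract (n * α) < a)).card := by
  unfold G
  rw [← Finset.card_union_of_disjoint]
  · congr 1
    ext n
    simp only [mem_union, mem_filter, mem_range]
    constructor
    · rintro ⟨h1, h2, h3⟩
      rcases Nat.lt_succ_iff_lt_or_eq.mp h2 with h | h
      · left; exact ⟨h1, h, h3⟩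
      · right; exact ⟨h1, h, h3⟩
    · rintro (⟨h1, h2, h3⟩ | ⟨h1, h2, h3⟩)
      · exact ⟨h1, by omega, h3⟩
      · exact ⟨h1, by omega, h3⟩
  · rw [Finset.disjoint_filter]
    intro n _ h1 h2
    omega

theorem G_lift (α : ℝ) (p : ℕ) (hp : 2 ≤ p) (a : ℝ) (N i B : ℕ) :
    G α p a N (i + 1) (p * B) = G α p a N i B := by
  unfold G
  congr 1
  apply Finset.filter_congr
  intro n _
  have h1 : n / p ^ i % p < p := Nat.mod_lt _ (by omega)
  rw [rv]
  constructor
  · rintro ⟨h2, h3⟩
    refine ⟨?_, h3⟩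
    by_contra h
    push Not at h
    have : p * B ≤ p * rv p i n := Nat.mul_le_mul_left _ h
    omega
  · rintro ⟨h2, h3⟩
    refine ⟨?_, h3⟩
    have : p * (rv p i n + 1) ≤ p * B := Nat.mul_le_mul_left _ h2
    rw [mul_add, mul_one] at this
    omega

/-- the error term -/
noncomputable def err (c : ℝ) (N : ℕ) : ℝ := 5 + 4 * (Real.log N / c)

theorem G_count (α c : ℝ) (p : ℕ) (hp : 2 ≤ p)
    (hα : ∀ i : ℕ, ∀ q : ℕ, 0 < q → ∀ z : ℤ, c ≤ q * |q * ((p : ℝ) ^ i * α) - z|) (hc : 0 < c)
    (a : ℝ) (ha0 : 0 ≤ a) (ha1 : a ≤ 1) (N : ℕ) (hN : 0 < N) (i : ℕ) : ∀ B : ℕ, B < p ^ i →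
    |(G α p a N i B : ℝ) - a * N * (B / (p : ℝ) ^ i)| ≤ i * p * err c N := by
  have herr : 0 ≤ err c N := by
    have : 0 ≤ Real.log N / c := div_nonneg (Real.log_nonneg (by exact_mod_cast hN)) hc.le
    unfold err; linarith
  induction i with
  | zero =>
    intro B hB
    have : B = 0 := by simpa using hB
    subst this
    simp [G]
  | succ i ih =>
    intro B hB
    have hpir : (0 : ℝ) < (p : ℝ) ^ i := by positivity
    have hpi1 : (0 : ℝ) < (p : ℝ) ^ (i + 1) := by positivity
    have hup : B / p < p ^ i := by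
      rw [Nat.div_lt_iff_lt_mul (by omega)]
      rw [pow_succ] at hB; exact hB
    have h1 := ih (B / p) hup
    -- add the digits one by one
    have h2 : ∀ d : ℕ, d ≤ B % p → |(G α p a N (i + 1) (p * (B / p) + d) : ℝ) -
        a * N * (((p * (B / p) + d : ℕ) : ℝ) / (p : ℝ) ^ (i + 1))| ≤ i * p * err c N + d * err c N := by
      intro d
      induction d with
      | zero =>
        intro _
        rw [add_zero, G_lift α p hp a N i (B / p)]
        have h3 : (((p * (B / p) : ℕ) : ℝ) / (p : ℝ) ^ (i + 1)) = ((B / p : ℕ) : ℝ) / (p : ℝ) ^ i := by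
          push_cast
          rw [pow_succ']
          field_simp
        rw [h3]
        push_cast
        rw [zero_mul, add_zero]
        exact h1
      | succ d ihd =>
        intro hd
        have h3 := ihd (by omega)
        rw [← add_assoc, G_step]
        have hu : p * (B / p) + d < p ^ (i + 1) := by
          have := Nat.div_add_mod B p
          omega
        have h4 := class_count α c p (i + 1) hp (hα (i + 1)) hc a ha0 ha1 N
          (rs p (i + 1) (p * (B / p) + d)) hN (rs_lt p hp (i + 1) _)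
        have h5 : ((range N).filter (fun n : ℕ => rv p (i + 1) n = p * (B / p) + d ∧
            Int.fract (n * α) < a)).card = ((range N).filter (fun n : ℕ =>
            n % p ^ (i + 1) = rs p (i + 1) (p * (B / p) + d) ∧ Int.fract (n * α) < a)).card := by
          congr 1
          apply Finset.filter_congr
          intro n _
          rw [rv_eq_iff p hp (i + 1) n _ hu]
        rw [h5]
        have h6 : ((((G α p a N (i + 1) (p * (B / p) + d)) + ((range N).filter (fun n : ℕ =>
            n % p ^ (i + 1) = rs p (i + 1) (p * (B / p) + d) ∧ Int.fract (n * α) < a)).card : ℕ) : ℝ) -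
            a * N * (((p * (B / p) + d + 1 : ℕ) : ℝ) / (p : ℝ) ^ (i + 1))) =
            ((G α p a N (i + 1) (p * (B / p) + d) : ℝ) -
            a * N * (((p * (B / p) + d : ℕ) : ℝ) / (p : ℝ) ^ (i + 1))) +
            ((((range N).filter (fun n : ℕ =>
            n % p ^ (i + 1) = rs p (i + 1) (p * (B / p) + d) ∧ Int.fract (n * α) < a)).card : ℝ) -
              a * (N / (p : ℝ) ^ (i + 1))) := by
          rw [Nat.cast_add, Nat.cast_add (p * (B / p) + d) 1, Nat.cast_one]
          ring
        rw [h6]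
        refine (abs_add_le _ _).trans ?_
        have h7 : i * p * err c N + ((d + 1 : ℕ) : ℝ) * err c N = (i * p * err c N + d * err c N) +
            err c N := by push_cast; ring
        rw [h7]
        exact add_le_add h3 h4
    have h3 := h2 (B % p) le_rfl
    rw [Nat.div_add_mod] at h3
    refine h3.trans ?_
    have h4 : ((B % p : ℕ) : ℝ) ≤ p := by
      exact_mod_cast (Nat.mod_lt B (by omega : 0 < p)).le
    have h5 : ((i + 1 : ℕ) : ℝ) * p * err c N = i * p * err c N + p * err c N := by push_cast; ring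
    rw [h5]
    gcongr

/-- **Counting in boxes.** -/
theorem box_count (α c : ℝ) (p : ℕ) (hp : 2 ≤ p)
    (hα : ∀ i : ℕ, ∀ q : ℕ, 0 < q → ∀ z : ℤ, c ≤ q * |q * ((p : ℝ) ^ i * α) - z|) (hc : 0 < c)
    (a : ℝ) (ha0 : 0 ≤ a) (ha1 : a ≤ 1) (b : ℝ) (hb0 : 0 ≤ b) (hb1 : b ≤ 1) (N m : ℕ) (hN : 0 < N)
    (hm : N ≤ p ^ m) :
    |(((range N).filter (fun n : ℕ => Int.fract (n * α) < a ∧ phi p n < b)).card : ℝ) - N * (a * b)| ≤
      (m * p + 1) * err c N + 2 := by
  have hlogN : 0 ≤ Real.log N / c := div_nonneg (Real.log_nonneg (by exact_mod_cast hN)) hc.le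
  have herr : 5 ≤ err c N := by
    unfold err; linarith
  have hpm : (0 : ℝ) < (p : ℝ) ^ m := by positivity
  rcases hb1.eq_or_lt with hb | hb
  · -- b = 1
    subst hb
    have h1 : ((range N).filter (fun n : ℕ => Int.fract (n * α) < a ∧ phi p n < 1)) =
        ((range N).filter (fun n : ℕ => n % p ^ 0 = 0 ∧ Int.fract (n * α) < a)) := by
      apply Finset.filter_congr
      intro n _
      simp [phi_lt_one p hp n, Nat.mod_one]
    rw [h1]
    have h2 := class_count α c p 0 hp (hα 0) hc a ha0 ha1 N 0 hN (by simp)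
    simp only [pow_zero, div_one] at h2 ⊢
    have h3 : (N : ℝ) * (a * 1) = a * N := by ring
    rw [h3]
    refine h2.trans ?_
    have h4 : (0 : ℝ) ≤ m * p * err c N := by positivity
    have h5 : (m * p + 1) * err c N = m * p * err c N + err c N := by ring
    rw [h5]
    unfold err at h4 ⊢
    linarith
  · set B : ℕ := ⌊b * (p : ℝ) ^ m⌋₊ with hB
    have hbp : 0 ≤ b * (p : ℝ) ^ m := by positivity
    have hB1 : (B : ℝ) ≤ b * (p : ℝ) ^ m := Nat.floor_le hbp
    have hB2 : b * (p : ℝ) ^ m < B + 1 := Nat.lt_floor_add_one _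
    have hBlt : B < p ^ m := by
      have : (B : ℝ) < (p : ℝ) ^ m := by nlinarith
      exact_mod_cast this
    have hG := G_count α c p hp hα hc a ha0 ha1 N hN m B hBlt
    -- compare the sets
    set S := (range N).filter (fun n : ℕ => Int.fract (n * α) < a ∧ phi p n < b) with hS
    have hlow : G α p a N m B ≤ S.card := by
      unfold G
      apply Finset.card_le_card
      intro n hn
      simp only [mem_filter, mem_range, hS] at hn ⊢
      refine ⟨hn.1, hn.2.2, ?_⟩
      have h1 := phi_rv p hp n m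
      have h2 := phi_lt_one p hp (n / p ^ m)
      have h3 : (rv p m n : ℝ) + 1 ≤ B := by exact_mod_cast hn.2.1
      have h4 : (p : ℝ) ^ m * phi p n < (p : ℝ) ^ m * b := by
        rw [h1, mul_comm _ b]; linarith
      exact lt_of_mul_lt_mul_left h4 hpm.le
    have hup : S.card ≤ G α p a N m B + 1 := by
      have h1 : S.card ≤ G α p a N m (B + 1) := by
        unfold G
        apply Finset.card_le_card
        intro n hn
        simp only [mem_filter, mem_range, hS] at hn ⊢
        refine ⟨hn.1, ?_, hn.2.1⟩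
        have h1 := phi_rv p hp n m
        have h2 := phi_nonneg p (n / p ^ m)
        have h3 : (rv p m n : ℝ) < B + 1 := by
          have : (p : ℝ) ^ m * phi p n < (p : ℝ) ^ m * b := by
            apply mul_lt_mul_of_pos_left hn.2.2 hpm
          rw [h1, mul_comm _ b] at this
          linarith
        exact_mod_cast h3
      rw [G_step] at h1
      have h2 : ((range N).filter (fun n : ℕ => rv p m n = B ∧ Int.fract (n * α) < a)).card ≤ 1 := by
        rw [Finset.card_le_one]
        intro x hx y hy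
        simp only [mem_filter, mem_range] at hx hy
        have h3 := (rv_eq_iff p hp m x B hBlt).mp hx.2.1
        have h4 := (rv_eq_iff p hp m y B hBlt).mp hy.2.1
        rw [Nat.mod_eq_of_lt (by omega)] at h3 h4
        omega
      omega
    have h1 : |(S.card : ℝ) - G α p a N m B| ≤ 1 := by
      have h2 : (G α p a N m B : ℝ) ≤ S.card := by exact_mod_cast hlow
      have h3 : (S.card : ℝ) ≤ G α p a N m B + 1 := by exact_mod_cast hup
      rw [abs_le]; constructor <;> linarith
    have h2 : |a * N * (B / (p : ℝ) ^ m) - N * (a * b)| ≤ 1 := by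
      have h3 : a * N * (B / (p : ℝ) ^ m) - N * (a * b) = a * ((N / (p : ℝ) ^ m) * (B - b * (p : ℝ) ^ m)) := by
        field_simp
      have h4 : (N : ℝ) / (p : ℝ) ^ m ≤ 1 := by
        rw [div_le_one hpm]; exact_mod_cast hm
      have h5 : |(B : ℝ) - b * (p : ℝ) ^ m| ≤ 1 := by rw [abs_le]; constructor <;> linarith
      rw [h3, abs_mul, abs_mul, abs_of_nonneg ha0, abs_of_nonneg (by positivity : (0 : ℝ) ≤ N / (p : ℝ) ^ m)]
      calc a * (N / (p : ℝ) ^ m * |(B : ℝ) - b * (p : ℝ) ^ m|) ≤ 1 * (1 * 1) := by gcongr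
        _ = 1 := by norm_num
    have h3 : (S.card : ℝ) - N * (a * b) = ((S.card : ℝ) - G α p a N m B) +
        ((G α p a N m B : ℝ) - a * N * (B / (p : ℝ) ^ m)) + (a * N * (B / (p : ℝ) ^ m) - N * (a * b)) := by
      ring
    rw [h3]
    refine (abs_add_le _ _).trans ?_
    have h4 := abs_add_le ((S.card : ℝ) - G α p a N m B) ((G α p a N m B : ℝ) - a * N * (B / (p : ℝ) ^ m))
    have h5 : (m * p + 1) * err c N = m * p * err c N + err c N := by ring
    rw [h5]
    linarith

end Pool.Agent.Q3.VdC
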